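import Mathlib
import Pool.Agent.V5helper5.SQ.Class

set_option autoImplicit false

namespace Pool.Agent.V5helper5.SQ2

open Finset Pool.Agent.V5helper5.SQ

/-- the constant term of a branch with respect to two centres -/
def ec (i : ℕ) (x k l : ℤ) : ℤ := cc i x + 3 ^ od i x * k - 2 ^ i * l

lemma branch_kk (i : ℕ) (x k l : ℤ) :
    2 ^ i * (T^[i] x - l) - 3 ^ od i x * (x - k) = ec i x k l := by
  unfold ec
  linear_combination branch x i

lemma ec_zero {i : ℕ} {x k l : ℤ} (h : ec i x k l = 0) : T^[i] k = l ∧ (2 : ℤ) ^ i ∣ x - k := by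
  have h1 := branch_kk i x k l
  rw [h] at h1
  have h2 : (2 : ℤ) ^ i ∣ 3 ^ od i x * (x - k) := ⟨T^[i] x - l, by linarith⟩
  have h3 : IsCoprime ((2 : ℤ) ^ i) (3 ^ od i x) := by
    apply IsCoprime.pow
    exact Int.isCoprime_iff_gcd_eq_one.2 (by norm_num)
  have h4 : (2 : ℤ) ^ i ∣ x - k := h3.dvd_of_dvd_mul_left h2
  refine ⟨?_, h4⟩
  obtain ⟨h5, h6⟩ := congr_branch h4 i (le_refl i)
  have h7 := branch k i
  rw [← h5, ← h6] at h7
  have h8 : (2 : ℤ) ^ i * T^[i] k = 2 ^ i * l := by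
    unfold ec at h; linarith
  exact mul_left_cancel₀ (by positivity) h8

lemma ec_bound {w i : ℕ} (hi : i ≤ w) (x : ℤ) {k l B : ℤ} (hk : |k| ≤ B) (hl : |l| ≤ B) :
    |ec i x k l| ≤ 3 ^ w * (1 + 2 * B) := by
  have hb := cc_bounds x i
  have h2 : (0 : ℤ) < 2 ^ i := by positivity
  have h3 : (2 : ℤ) ^ i ≤ 3 ^ i := pow_le_pow_left₀ (by norm_num) (by norm_num) i
  have h4 : (3 : ℤ) ^ i ≤ 3 ^ w := pow_le_pow_right₀ (by norm_num) hi
  have h5 : (3 : ℤ) ^ od i x ≤ 3 ^ i := pow_le_pow_right₀ (by norm_num) (od_le x i)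
  have h6 : (0 : ℤ) < 3 ^ od i x := by positivity
  have hB : 0 ≤ B := (abs_nonneg k).trans hk
  have e1 : |(3 : ℤ) ^ od i x * k| ≤ 3 ^ w * B := by
    rw [abs_mul, abs_of_pos h6]
    exact mul_le_mul (h5.trans h4) hk (abs_nonneg _) (by positivity)
  have e2 : |(2 : ℤ) ^ i * l| ≤ 3 ^ w * B := by
    rw [abs_mul, abs_of_pos h2]
    exact mul_le_mul (h3.trans h4) hl (abs_nonneg _) (by positivity)
  have e3 : |ec i x k l| ≤ |cc i x| + |(3 : ℤ) ^ od i x * k| + |(2 : ℤ) ^ i * l| := by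
    unfold ec
    refine (abs_sub _ _).trans ?_
    have := abs_add_le (cc i x) (3 ^ od i x * k)
    linarith
  rw [abs_of_nonneg hb.1] at e3
  linarith [hb.2]

lemma ec_rel {i j : ℕ} (hij : i ≤ j) (x k l r : ℤ) :
    ec j x k r - 3 ^ od (j - i) (T^[i] x) * ec i x k l = 2 ^ i * ec (j - i) (T^[i] x) l r := by
  obtain ⟨q, rfl⟩ := Nat.exists_eq_add_of_le hij
  rw [Nat.add_sub_cancel_left, ← branch_kk, ← branch_kk, ← branch_kk, od_add, pow_add, pow_add,
    ← Function.iterate_add_apply, add_comm q i]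
  ring

/-- a class for `m ≥ 2` and three special terms -/
lemma class_two {w i j m K : ℕ} {k1 k2 k3 s1 s2 s3 B : ℤ} (hm : 2 ≤ m) (hij : i < j) (hj : j ≤ w)
    (hk1 : |k1| ≤ B) (hk2 : |k2| ≤ B) (hk3 : |k3| ≤ B)
    (hs1 : s1 ≠ 0) (hs2 : s2 ≠ 0) (hs3 : s3 ≠ 0) {M : ℕ} (hM : (3 : ℤ) ^ w * (1 + 2 * B) ≤ M)
    (F : Finset ℤ) (a b c : ℤ → ℕ)
    (hcong : ∀ x ∈ F, ∀ y ∈ F, (2 : ℤ) ^ w ∣ x - y)
    (hne : ∀ x ∈ F, ec i x k1 k2 ≠ 0 ∧ ec j x k1 k3 ≠ 0 ∧ ec (j - i) (T^[i] x) k2 k3 ≠ 0)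
    (ha : ∀ x ∈ F, x - k1 = s1 * (a x : ℤ) ^ m ∧ T^[i] x - k2 = s2 * (b x : ℤ) ^ m ∧
      T^[j] x - k3 = s3 * (c x : ℤ) ^ m)
    (hlow : ∀ x ∈ F, 2 * (6 * M ^ 2) ≤ a x) (hup : ∀ x ∈ F, |x - k1| < 2 ^ (2 ^ K)) :
    F.card ≤ 2 * K := by
  classical
  have hB : 0 ≤ B := (abs_nonneg k1).trans hk1
  have hM1 : 1 ≤ M := by
    have h1 : (1 : ℤ) ≤ 3 ^ w * (1 + 2 * B) := by
      have h2 : (1 : ℤ) ≤ 3 ^ w := one_le_pow₀ (by norm_num)
      nlinarith
    have : (1 : ℤ) ≤ M := h1.trans hM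
    exact_mod_cast this
  have hMM : (M : ℤ) ≤ (M : ℤ) ^ 2 := by
    have : (1 : ℤ) ≤ M := by exact_mod_cast hM1
    nlinarith
  have hinj : Set.InjOn a F := by
    intro x hx y hy hxy
    have h1 := (ha x hx).1
    have h2 := (ha y hy).1
    rw [hxy, ← h2] at h1
    linarith
  rw [← Finset.card_image_of_injOn hinj]
  -- sizes of the constants
  have hapos : ∀ x ∈ F, 12 * (M : ℤ) ^ 2 ≤ a x := by
    intro x hx
    have := hlow x hx
    have h : ((2 * (6 * M ^ 2) : ℕ) : ℤ) ≤ a x := by exact_mod_cast this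
    push_cast at h; linarith
  have heb : ∀ x : ℤ, ∀ l, l ≤ w → ∀ κ, |κ| ≤ B → |ec l x k1 κ| ≤ M :=
    fun x l hl κ hκ => (ec_bound hl x hk1 hκ).trans hM
  have hapow : ∀ x ∈ F, (a x : ℤ) ≤ |x - k1| := by
    intro x hx
    rw [(ha x hx).1, abs_mul]
    have h0 := hapos x hx
    have h1 : (1 : ℤ) ≤ a x := by nlinarith [hMM, hM1]
    have h2 : |(a x : ℤ) ^ m| = (a x : ℤ) ^ m := abs_of_pos (by positivity)
    rw [h2]
    have h3 : 1 ≤ |s1| := Int.one_le_abs hs1
    have h4 : (a x : ℤ) ≤ (a x : ℤ) ^ m := by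
      calc (a x : ℤ) = (a x : ℤ) ^ 1 := by ring
        _ ≤ (a x : ℤ) ^ m := pow_le_pow_right₀ h1 (by omega)
    nlinarith
  have hpos : ∀ x ∈ F, ∀ l, l ≤ w → ∀ κ, |κ| ≤ B → T^[l] x ≠ κ := by
    intro x hx l hl κ hκ h
    have h1 := branch_kk l x k1 κ
    rw [h, sub_self, mul_zero, zero_sub] at h1
    have h2 : 3 ^ od l x * |x - k1| ≤ M := by
      have h3 : |(3 : ℤ) ^ od l x * (x - k1)| ≤ M := by
        rw [← abs_neg, h1]; exact heb x l hl κ hκ
      rwa [abs_mul, abs_of_pos (by positivity)] at h3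
    have h4 : (1 : ℤ) ≤ 3 ^ od l x := one_le_pow₀ (by norm_num)
    have h5 := hapow x hx
    have h6 := hapos x hx
    have h7 : |x - k1| ≤ 3 ^ od l x * |x - k1| := by nlinarith [abs_nonneg (x - k1)]
    have h8 : (0 : ℤ) < M := by exact_mod_cast hM1
    nlinarith
  have hbpos : ∀ x ∈ F, 0 < (b x : ℤ) := by
    intro x hx
    rcases Nat.eq_zero_or_pos (b x) with h | h
    · exfalso
      have h1 := (ha x hx).2.1
      rw [h, Nat.cast_zero, zero_pow (by omega), mul_zero] at h1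
      exact hpos x hx i (by omega) k2 hk2 (by linarith)
    · exact_mod_cast h
  have hcpos : ∀ x ∈ F, 0 < (c x : ℤ) := by
    intro x hx
    rcases Nat.eq_zero_or_pos (c x) with h | h
    · exfalso
      have h1 := (ha x hx).2.2
      rw [h, Nat.cast_zero, zero_pow (by omega), mul_zero] at h1
      exact hpos x hx j hj k3 hk3 (by linarith)
    · exact_mod_cast h
  apply card_chain (E := 6 * M ^ 2) (by nlinarith [hM1])
  · intro a' ha' b' hb' c' hc' hab hbc
    obtain ⟨x, hx, rfl⟩ := Finset.mem_image.1 ha'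
    obtain ⟨y, hy, rfl⟩ := Finset.mem_image.1 hb'
    obtain ⟨z, hz, rfl⟩ := Finset.mem_image.1 hc'
    -- common branches
    have hyx := fun l hl => congr_branch (hcong y hy x hx) l hl
    have hzx := fun l hl => congr_branch (hcong z hz x hx) l hl
    have eky : ∀ l, l ≤ w → ∀ κ, ec l y k1 κ = ec l x k1 κ := by
      intro l hl κ; unfold ec; rw [(hyx l hl).1, (hyx l hl).2]
    have ekz : ∀ l, l ≤ w → ∀ κ, ec l z k1 κ = ec l x k1 κ := by
      intro l hl κ; unfold ec; rw [(hzx l hl).1, (hzx l hl).2]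
    have hi : i ≤ w := by omega
    set e1 := ec i x k1 k2 with he1
    set e2 := ec j x k1 k3 with he2
    obtain ⟨n1, n2, n3⟩ := hne x hx
    have hE1 := heb x i hi k2 hk2
    have hE2 := heb x j hj k3 hk3
    rw [← he1] at hE1 n1
    rw [← he2] at hE2 n2
    -- the equations
    have eqn1 : ∀ u, u ∈ F → ec i u k1 k2 = e1 → od i u = od i x →
        (2 ^ i * s2) * (b u : ℤ) ^ m - (3 ^ od i x * s1) * (a u : ℤ) ^ m = e1 := by
      intro u hu h1 h2
      have h3 := branch_kk i u k1 k2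
      rw [(ha u hu).1, (ha u hu).2.1, h1, h2] at h3
      linarith
    have eqn2 : ∀ u, u ∈ F → ec j u k1 k3 = e2 → od j u = od j x →
        (2 ^ j * s3) * (c u : ℤ) ^ m - (3 ^ od j x * s1) * (a u : ℤ) ^ m = e2 := by
      intro u hu h1 h2
      have h3 := branch_kk j u k1 k3
      rw [(ha u hu).1, (ha u hu).2.2, h1, h2] at h3
      linarith
    have px := eqn1 x hx rfl rfl
    have py := eqn1 y hy (eky i hi k2) (hyx i hi).1
    have pz := eqn1 z hz (ekz i hi k2) (hzx i hi).1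
    have qx := eqn2 x hx rfl rfl
    have qy := eqn2 y hy (eky j hj k3) (hyx j hj).1
    have qz := eqn2 z hz (ekz j hj k3) (hzx j hj).1
    have hP : (2 : ℤ) ^ i * s2 ≠ 0 := mul_ne_zero (by positivity) hs2
    have hQ : (3 : ℤ) ^ od i x * s1 ≠ 0 := mul_ne_zero (by positivity) hs1
    have hR : (2 : ℤ) ^ j * s3 ≠ 0 := mul_ne_zero (by positivity) hs3
    have hS : (3 : ℤ) ^ od j x * s1 ≠ 0 := mul_ne_zero (by positivity) hs1
    have hM0 : (0 : ℤ) < M := by exact_mod_cast hM1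
    have h0x := hapos x hx
    have h0y := hapos y hy
    have h0z := hapos z hz
    have hab' : (a x : ℤ) < a y := by exact_mod_cast hab
    have hbc' : (a y : ℤ) < a z := by exact_mod_cast hbc
    have hax : (0 : ℤ) < a x := by nlinarith
    have hay : (0 : ℤ) < a y := by nlinarith
    have goal : (a x : ℤ) * a y ≤ 6 * (M : ℤ) ^ 2 * a z := by
      rcases Nat.lt_or_ge m 3 with hm3 | hm3
      · have hm2 : m = 2 := by omega
        rw [hm2] at px py pz qx qy qz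
        have hne' : (3 ^ od i x * s1) * e2 ≠ (3 ^ od j x * s1) * e1 := by
          intro h
          have hr := ec_rel hij.le x k1 k2 k3
          have ho : od j x = od i x + od (j - i) (T^[i] x) := by
            rw [← od_add]; congr 1; omega
          rw [ho, pow_add] at h
          have h2 : (3 : ℤ) ^ od i x * s1 * (2 ^ i * ec (j - i) (T^[i] x) k2 k3) = 0 := by
            rw [← hr]; linear_combination h
          rcases mul_eq_zero.1 h2 with h3 | h3
          · exact hQ h3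
          · rcases mul_eq_zero.1 h3 with h4 | h4
            · exact absurd h4 (by positivity)
            · exact n3 h4
        have hbig : (M : ℤ) < (a x : ℤ) ^ 2 := by nlinarith
        have hgap := gap_two' n1 n2 hP hQ hR hS hne' hax (hbpos x hx) (hbpos y hy) (hbpos z hz)
          (hcpos x hx) (hcpos y hy) (hcpos z hz) hab' hbc' px py pz qx qy qz
          (lt_of_le_of_lt hE1 hbig) (lt_of_le_of_lt hE2 hbig)
        refine hgap.trans ?_
        have h1 : |e1| * |e2| ≤ (M : ℤ) * M := mul_le_mul hE1 hE2 (abs_nonneg _) hM0.le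
        have h2 : (0 : ℤ) ≤ a z := by positivity
        nlinarith [mul_le_mul_of_nonneg_right h1 h2]
      · have hbig : 2 * |e1| ≤ a z := by nlinarith
        have hgap := gap_pow hm3 n1 hQ hay (hbpos y hy) (hbpos z hz) hbc' py pz hbig
        have h2 : (0 : ℤ) ≤ a z := by positivity
        have h3 : 2 * |e1| * a z ≤ 6 * (M : ℤ) ^ 2 * a z := by
          apply mul_le_mul_of_nonneg_right _ h2
          nlinarith
        nlinarith
    exact_mod_cast goal
  · intro a' ha'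
    obtain ⟨x, hx, rfl⟩ := Finset.mem_image.1 ha'
    exact hlow x hx
  · intro a' ha'
    obtain ⟨x, hx, rfl⟩ := Finset.mem_image.1 ha'
    have h1 : (a x : ℤ) < 2 ^ (2 ^ K) := lt_of_le_of_lt (hapow x hx) (hup x hx)
    exact_mod_cast h1

/-- a class for `m ≥ 3` and two special terms -/
lemma class_three {w i m K : ℕ} {k1 k2 s1 s2 B : ℤ} (hm : 3 ≤ m) (hi : i ≤ w)
    (hk1 : |k1| ≤ B) (hk2 : |k2| ≤ B) (hs1 : s1 ≠ 0)
    {M : ℕ} (hM : (3 : ℤ) ^ w * (1 + 2 * B) ≤ M)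
    (F : Finset ℤ) (a b : ℤ → ℕ)
    (hcong : ∀ x ∈ F, ∀ y ∈ F, (2 : ℤ) ^ w ∣ x - y)
    (hne : ∀ x ∈ F, ec i x k1 k2 ≠ 0)
    (ha : ∀ x ∈ F, x - k1 = s1 * (a x : ℤ) ^ m ∧ T^[i] x - k2 = s2 * (b x : ℤ) ^ m)
    (hlow : ∀ x ∈ F, 2 * (2 * M) ≤ a x) (hup : ∀ x ∈ F, |x - k1| < 2 ^ (2 ^ K)) :
    F.card ≤ 2 * K := by
  classical
  have hB : 0 ≤ B := (abs_nonneg k1).trans hk1
  have hM1 : 1 ≤ M := by
    have h1 : (1 : ℤ) ≤ 3 ^ w * (1 + 2 * B) := by
      have h2 : (1 : ℤ) ≤ 3 ^ w := one_le_pow₀ (by norm_num)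
      nlinarith
    have : (1 : ℤ) ≤ M := h1.trans hM
    exact_mod_cast this
  have hinj : Set.InjOn a F := by
    intro x hx y hy hxy
    have h1 := (ha x hx).1
    have h2 := (ha y hy).1
    rw [hxy, ← h2] at h1
    linarith
  rw [← Finset.card_image_of_injOn hinj]
  have hM0 : (1 : ℤ) ≤ M := by exact_mod_cast hM1
  have hapos : ∀ x ∈ F, 4 * (M : ℤ) ≤ a x := by
    intro x hx
    have := hlow x hx
    have h : ((2 * (2 * M) : ℕ) : ℤ) ≤ a x := by exact_mod_cast this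
    push_cast at h; linarith
  have heb : ∀ x : ℤ, ∀ l, l ≤ w → ∀ κ, |κ| ≤ B → |ec l x k1 κ| ≤ M :=
    fun x l hl κ hκ => (ec_bound hl x hk1 hκ).trans hM
  have hapow : ∀ x ∈ F, (a x : ℤ) ≤ |x - k1| := by
    intro x hx
    rw [(ha x hx).1, abs_mul]
    have h0 := hapos x hx
    have h1 : (1 : ℤ) ≤ a x := by linarith
    have h2 : |(a x : ℤ) ^ m| = (a x : ℤ) ^ m := abs_of_pos (by positivity)
    rw [h2]
    have h3 : 1 ≤ |s1| := Int.one_le_abs hs1
    have h4 : (a x : ℤ) ≤ (a x : ℤ) ^ m := by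
      calc (a x : ℤ) = (a x : ℤ) ^ 1 := by ring
        _ ≤ (a x : ℤ) ^ m := pow_le_pow_right₀ h1 (by omega)
    nlinarith
  have hpos : ∀ x ∈ F, ∀ l, l ≤ w → ∀ κ, |κ| ≤ B → T^[l] x ≠ κ := by
    intro x hx l hl κ hκ h
    have h1 := branch_kk l x k1 κ
    rw [h, sub_self, mul_zero, zero_sub] at h1
    have h2 : 3 ^ od l x * |x - k1| ≤ M := by
      have h3 : |(3 : ℤ) ^ od l x * (x - k1)| ≤ M := by
        rw [← abs_neg, h1]; exact heb x l hl κ hκ
      rwa [abs_mul, abs_of_pos (by positivity)] at h3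
    have h4 : (1 : ℤ) ≤ 3 ^ od l x := one_le_pow₀ (by norm_num)
    have h5 := hapow x hx
    have h6 := hapos x hx
    have h7 : |x - k1| ≤ 3 ^ od l x * |x - k1| := by nlinarith [abs_nonneg (x - k1)]
    nlinarith
  have hbpos : ∀ x ∈ F, 0 < (b x : ℤ) := by
    intro x hx
    rcases Nat.eq_zero_or_pos (b x) with h | h
    · exfalso
      have h1 := (ha x hx).2
      rw [h, Nat.cast_zero, zero_pow (by omega), mul_zero] at h1
      exact hpos x hx i (by omega) k2 hk2 (by linarith)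
    · exact_mod_cast h
  apply card_chain (E := 2 * M) (by omega)
  · intro a' ha' b' hb' c' hc' hab hbc
    obtain ⟨x, hx, rfl⟩ := Finset.mem_image.1 ha'
    obtain ⟨y, hy, rfl⟩ := Finset.mem_image.1 hb'
    obtain ⟨z, hz, rfl⟩ := Finset.mem_image.1 hc'
    have hyx := fun l hl => congr_branch (hcong y hy x hx) l hl
    have hzx := fun l hl => congr_branch (hcong z hz x hx) l hl
    have eky : ec i y k1 k2 = ec i x k1 k2 := by
      unfold ec; rw [(hyx i hi).1, (hyx i hi).2]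
    have ekz : ec i z k1 k2 = ec i x k1 k2 := by
      unfold ec; rw [(hzx i hi).1, (hzx i hi).2]
    set e1 := ec i x k1 k2 with he1
    have n1 := hne x hx
    have hE1 := heb x i hi k2 hk2
    rw [← he1] at hE1 n1
    have eqn1 : ∀ u, u ∈ F → ec i u k1 k2 = e1 → od i u = od i x →
        (2 ^ i * s2) * (b u : ℤ) ^ m - (3 ^ od i x * s1) * (a u : ℤ) ^ m = e1 := by
      intro u hu h1 h2
      have h3 := branch_kk i u k1 k2
      rw [(ha u hu).1, (ha u hu).2, h1, h2] at h3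
      linarith
    have py := eqn1 y hy eky (hyx i hi).1
    have pz := eqn1 z hz ekz (hzx i hi).1
    have hQ : (3 : ℤ) ^ od i x * s1 ≠ 0 := mul_ne_zero (by positivity) hs1
    have h0x := hapos x hx
    have h0y := hapos y hy
    have h0z := hapos z hz
    have hab' : (a x : ℤ) < a y := by exact_mod_cast hab
    have hbc' : (a y : ℤ) < a z := by exact_mod_cast hbc
    have hax : (0 : ℤ) < a x := by linarith
    have hay : (0 : ℤ) < a y := by linarith
    have goal : (a x : ℤ) * a y ≤ 2 * (M : ℤ) * a z := by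
      have hbig : 2 * |e1| ≤ a z := by linarith
      have hgap := gap_pow hm n1 hQ hay (hbpos y hy) (hbpos z hz) hbc' py pz hbig
      have h2 : (0 : ℤ) ≤ a z := by positivity
      have h3 : 2 * |e1| * a z ≤ 2 * (M : ℤ) * a z := by
        apply mul_le_mul_of_nonneg_right _ h2
        linarith
      nlinarith
    exact_mod_cast goal
  · intro a' ha'
    obtain ⟨x, hx, rfl⟩ := Finset.mem_image.1 ha'
    exact hlow x hx
  · intro a' ha'
    obtain ⟨x, hx, rfl⟩ := Finset.mem_image.1 ha'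
    have h1 : (a x : ℤ) < 2 ^ (2 ^ K) := lt_of_le_of_lt (hapow x hx) (hup x hx)
    exact_mod_cast h1

end Pool.Agent.V5helper5.SQ2
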