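import Mathlib
import Pool.Agent.V5helper5.SQ.Count
import Pool.Agent.V5helper5.SQ2.Class

set_option autoImplicit false

namespace Pool.Agent.V5helper5.SQ2

open Finset Classical Pool.Agent.V5helper5.SQ

/-- natural form of a special element; `P` is a set of pairs (centre, multiplier) -/
def SpN (P : Finset (ℤ × ℤ)) (m : ℕ) (y : ℤ) : Prop :=
  ∃ (q : ℤ × ℤ) (a : ℕ), q ∈ P ∧ q.2 ≠ 0 ∧ y - q.1 = q.2 * (a : ℤ) ^ m ∧
    ∀ i : ℕ, 1 ≤ i → ∀ r ∈ P, T^[i] q.1 = r.1 → ¬ (2 : ℤ) ^ i ∣ y - q.1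

theorem count_two {x0 B : ℤ} {m n w K M : ℕ} (P : Finset (ℤ × ℤ)) (hm : 2 ≤ m) (hw : 1 ≤ w)
    (hB : ∀ q ∈ P, |q.1| ≤ B) (hM : (3 : ℤ) ^ w * (1 + 2 * B) ≤ M)
    (hinj : Set.InjOn (fun i => T^[i] x0) (range n : Finset ℕ))
    (hup : ∀ t < n, ∀ q ∈ P, |T^[t] x0 - q.1| < 2 ^ (2 ^ K)) (S : Finset ℕ) (hS : S ⊆ range n)
    (hsp : ∀ t ∈ S, SpN P m (T^[t] x0)) :
    S.card ≤ 2 * (n / w + 1) + P.card * (2 * (6 * M ^ 2)) +
      2 ^ w * (w + 1) ^ 2 * P.card ^ 3 * (2 * K) := by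
  -- choice of the pair and of the root
  have hch : ∀ y : ℤ, ∃ (q : ℤ × ℤ) (a : ℕ), SpN P m y → q ∈ P ∧ q.2 ≠ 0 ∧
      y - q.1 = q.2 * (a : ℤ) ^ m ∧
      ∀ i : ℕ, 1 ≤ i → ∀ r ∈ P, T^[i] q.1 = r.1 → ¬ (2 : ℤ) ^ i ∣ y - q.1 := by
    intro y
    by_cases h : SpN P m y
    · obtain ⟨q, a, h1⟩ := h
      exact ⟨q, a, fun _ => h1⟩
    · exact ⟨0, 0, fun h' => absurd h' h⟩
  choose qf af hqa using hch
  set Bd := S.filter fun t => ¬ ∃ i j, 1 ≤ i ∧ i < j ∧ j ≤ w ∧ t + i ∈ S ∧ t + j ∈ S with hBd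
  set Gd := S.filter fun t => ∃ i j, 1 ≤ i ∧ i < j ∧ j ≤ w ∧ t + i ∈ S ∧ t + j ∈ S with hGd
  have hgd : ∀ t : ℕ, ∃ i j, t ∈ Gd → 1 ≤ i ∧ i < j ∧ j ≤ w ∧ t + i ∈ S ∧ t + j ∈ S := by
    intro t
    by_cases h : t ∈ Gd
    · obtain ⟨i, j, h1⟩ := (Finset.mem_filter.1 h).2
      exact ⟨i, j, fun _ => h1⟩
    · exact ⟨0, 0, fun h' => absurd h' h⟩
  choose ti tj htij using hgd
  have hcard : S.card = Gd.card + Bd.card := (Finset.card_filter_add_card_filter_not _).symm
  set Sm := Gd.filter fun t => af (T^[t] x0) < 2 * (6 * M ^ 2) with hSm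
  set Lg := Gd.filter fun t => ¬ af (T^[t] x0) < 2 * (6 * M ^ 2) with hLg
  have hcard2 : Gd.card = Sm.card + Lg.card := (Finset.card_filter_add_card_filter_not _).symm
  have hGS : ∀ t ∈ Gd, t ∈ S := fun t ht => (Finset.mem_filter.1 ht).1
  have hsf : ∀ t ∈ S, qf (T^[t] x0) ∈ P := fun t ht => (hqa _ (hsp t ht)).1
  have hSmc : Sm.card ≤ P.card * (2 * (6 * M ^ 2)) := by
    have h1 : Sm.card ≤ (P ×ˢ range (2 * (6 * M ^ 2))).card := by
      apply Finset.card_le_card_of_injOn (fun t => (qf (T^[t] x0), af (T^[t] x0)))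
      · intro t ht
        have ht' := Finset.mem_filter.1 (Finset.mem_coe.1 ht)
        rw [Finset.mem_coe, Finset.mem_product]
        exact ⟨hsf t (hGS t ht'.1), Finset.mem_range.2 ht'.2⟩
      · intro t ht u hu htu
        have ht' := (Finset.mem_filter.1 (Finset.mem_coe.1 ht)).1
        have hu' := (Finset.mem_filter.1 (Finset.mem_coe.1 hu)).1
        simp only [Prod.mk.injEq] at htu
        have e1 := (hqa _ (hsp t (hGS t ht'))).2.2.1
        have e2 := (hqa _ (hsp u (hGS u hu'))).2.2.1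
        rw [htu.1, htu.2, ← e2] at e1
        apply hinj (hS (hGS t ht')) (hS (hGS u hu'))
        simp only
        linarith
    refine h1.trans ?_
    rw [Finset.card_product, Finset.card_range]
  -- large ones
  have hLgc : Lg.card ≤ (2 * K) * (2 ^ w * ((w + 1) * ((w + 1) * (P.card * (P.card *
      P.card))))) := by
    set D := (Finset.Ico (0 : ℤ) (2 ^ w)) ×ˢ (range (w + 1) ×ˢ (range (w + 1) ×ˢ
      (P ×ˢ (P ×ˢ P)))) with hD
    let φ : ℕ → ℤ × ℕ × ℕ × (ℤ × ℤ) × (ℤ × ℤ) × (ℤ × ℤ) := fun t => (T^[t] x0 % 2 ^ w, ti t, tj t,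
      qf (T^[t] x0), qf (T^[t + ti t] x0), qf (T^[t + tj t] x0))
    have hmaps : ∀ t ∈ Lg, φ t ∈ D := by
      intro t ht
      have ht' := (Finset.mem_filter.1 ht).1
      obtain ⟨h1, h2, h3, h4, h5⟩ := htij t ht'
      have m1 := hsf t (hGS t ht')
      have m2 := hsf _ h4
      have m3 := hsf _ h5
      show (T^[t] x0 % 2 ^ w, ti t, tj t, qf (T^[t] x0), qf (T^[t + ti t] x0),
        qf (T^[t + tj t] x0)) ∈ D
      rw [hD, Finset.mem_product, Finset.mem_product, Finset.mem_product, Finset.mem_product,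
        Finset.mem_product]
      exact ⟨Finset.mem_Ico.2 ⟨Int.emod_nonneg _ (by positivity),
        Int.emod_lt_of_pos _ (by positivity)⟩, Finset.mem_range.2 (by simp only; omega),
        Finset.mem_range.2 (by simp only; omega), m1, m2, m3⟩
    have hfib : ∀ d ∈ D, (Lg.filter fun t => φ t = d).card ≤ 2 * K := by
      intro d _
      set F := Lg.filter fun t => φ t = d with hF
      rcases F.eq_empty_or_nonempty with he | ⟨t0, ht0⟩
      · rw [he]; simp
      have hφ : ∀ t ∈ F, φ t = φ t0 := by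
        intro t ht
        rw [(Finset.mem_filter.1 ht).2, (Finset.mem_filter.1 ht0).2]
      have hFL : ∀ t ∈ F, t ∈ Lg := fun t ht => (Finset.mem_filter.1 ht).1
      have hFG : ∀ t ∈ F, t ∈ Gd := fun t ht => (Finset.mem_filter.1 (hFL t ht)).1
      have hFS : ∀ t ∈ F, t ∈ S := fun t ht => hGS t (hFG t ht)
      have hinjF : Set.InjOn (fun i => T^[i] x0) (F : Set ℕ) := by
        intro t ht u hu h
        exact hinj (hS (hFS t ht)) (hS (hFS u hu)) h
      rw [← Finset.card_image_of_injOn hinjF]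
      obtain ⟨g1, g2, g3, g4, g5⟩ := htij t0 (hFG t0 ht0)
      have hcomp : ∀ t ∈ F, T^[t] x0 % 2 ^ w = T^[t0] x0 % 2 ^ w ∧ ti t = ti t0 ∧ tj t = tj t0 ∧
          qf (T^[t] x0) = qf (T^[t0] x0) ∧ qf (T^[t + ti t0] x0) = qf (T^[t0 + ti t0] x0) ∧
          qf (T^[t + tj t0] x0) = qf (T^[t0 + tj t0] x0) := by
        intro t ht
        have h := hφ t ht
        simp only [φ, Prod.mk.injEq] at h
        obtain ⟨h1, h2, h3, h4, h5, h6⟩ := h
        rw [h2] at h5
        rw [h3] at h6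
        exact ⟨h1, h2, h3, h4, h5, h6⟩
      have hiS : ∀ t ∈ F, t + ti t0 ∈ S ∧ t + tj t0 ∈ S := by
        intro t ht
        obtain ⟨c1, c2, c3, c4, c5, c6⟩ := hcomp t ht
        obtain ⟨_, _, _, g4', g5'⟩ := htij t (hFG t ht)
        rw [c2] at g4'
        rw [c3] at g5'
        exact ⟨g4', g5'⟩
      have q0 := hqa _ (hsp _ (hFS t0 ht0))
      have q1 := hqa _ (hsp _ g4)
      have q2 := hqa _ (hsp _ g5)
      apply class_two (w := w) (i := ti t0) (j := tj t0) (m := m) (k1 := (qf (T^[t0] x0)).1)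
        (k2 := (qf (T^[t0 + ti t0] x0)).1) (k3 := (qf (T^[t0 + tj t0] x0)).1)
        (s1 := (qf (T^[t0] x0)).2) (s2 := (qf (T^[t0 + ti t0] x0)).2)
        (s3 := (qf (T^[t0 + tj t0] x0)).2) (B := B)
        hm g2 g3 (hB _ q0.1) (hB _ q1.1) (hB _ q2.1) q0.2.1 q1.2.1 q2.2.1 hM
        _ af (fun x => af (T^[ti t0] x)) (fun x => af (T^[tj t0] x))
      · intro x hx y hy
        obtain ⟨t, ht, rfl⟩ := Finset.mem_image.1 hx
        obtain ⟨u, hu, rfl⟩ := Finset.mem_image.1 hy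
        have h : T^[t] x0 % 2 ^ w = T^[u] x0 % 2 ^ w := by
          rw [(hcomp t ht).1, (hcomp u hu).1]
        exact Int.dvd_of_emod_eq_zero (Int.emod_eq_emod_iff_emod_sub_eq_zero.1 h)
      · intro x hx
        obtain ⟨t, ht, rfl⟩ := Finset.mem_image.1 hx
        have hst := (hqa _ (hsp t (hFS t ht))).2.2.2
        have hsi := (hqa _ (hsp _ (hiS t ht).1)).2.2.2
        have c4 := (hcomp t ht).2.2.2.1
        have c5 := (hcomp t ht).2.2.2.2.1
        refine ⟨fun h => ?_, fun h => ?_, fun h => ?_⟩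
        · obtain ⟨h1, h2⟩ := ec_zero h
          rw [← c4] at h1 h2
          exact hst _ g1 _ q1.1 h1 h2
        · obtain ⟨h1, h2⟩ := ec_zero h
          rw [← c4] at h1 h2
          exact hst _ (by omega) _ q2.1 h1 h2
        · obtain ⟨h1, h2⟩ := ec_zero h
          rw [← Function.iterate_add_apply, add_comm (ti t0) t, ← c5] at h2
          rw [← c5] at h1
          exact hsi _ (by omega) _ q2.1 h1 h2
      · intro x hx
        obtain ⟨t, ht, rfl⟩ := Finset.mem_image.1 hx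
        obtain ⟨c1, c2, c3, c4, c5, c6⟩ := hcomp t ht
        refine ⟨?_, ?_, ?_⟩
        · rw [← c4]
          exact (hqa _ (hsp t (hFS t ht))).2.2.1
        · simp only [← Function.iterate_add_apply]
          rw [add_comm (ti t0) t, ← c5]
          exact (hqa _ (hsp _ (hiS t ht).1)).2.2.1
        · simp only [← Function.iterate_add_apply]
          rw [add_comm (tj t0) t, ← c6]
          exact (hqa _ (hsp _ (hiS t ht).2)).2.2.1
      · intro x hx
        obtain ⟨t, ht, rfl⟩ := Finset.mem_image.1 hx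
        have := (Finset.mem_filter.1 (hFL t ht)).2
        omega
      · intro x hx
        obtain ⟨t, ht, rfl⟩ := Finset.mem_image.1 hx
        exact hup t (Finset.mem_range.1 (hS (hFS t ht))) _ q0.1
    have h1 := Finset.card_le_mul_card_image_of_maps_to hmaps (2 * K) hfib
    refine h1.trans (le_of_eq ?_)
    have hJ : (Finset.Ico (0 : ℤ) (2 ^ w)).card = 2 ^ w := by
      rw [Int.card_Ico, sub_zero]
      have : ((2 : ℤ) ^ w) = ((2 ^ w : ℕ) : ℤ) := by push_cast; rfl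
      rw [this, Int.toNat_natCast]
    rw [hD]
    simp only [Finset.card_product, hJ, Finset.card_range]
  have hbad : Bd.card ≤ 2 * (n / w + 1) := by
    rw [hBd]; convert bad_count hw S hS
  rw [hcard, hcard2]
  have h5 : (2 * K) * (2 ^ w * ((w + 1) * ((w + 1) * (P.card * (P.card * P.card))))) =
      2 ^ w * (w + 1) ^ 2 * P.card ^ 3 * (2 * K) := by ring
  rw [h5] at hLgc
  omega

theorem count_three {x0 B : ℤ} {m n w K M : ℕ} (P : Finset (ℤ × ℤ)) (hm : 3 ≤ m) (hw : 1 ≤ w)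
    (hB : ∀ q ∈ P, |q.1| ≤ B) (hM : (3 : ℤ) ^ w * (1 + 2 * B) ≤ M)
    (hinj : Set.InjOn (fun i => T^[i] x0) (range n : Finset ℕ))
    (hup : ∀ t < n, ∀ q ∈ P, |T^[t] x0 - q.1| < 2 ^ (2 ^ K)) (S : Finset ℕ) (hS : S ⊆ range n)
    (hsp : ∀ t ∈ S, SpN P m (T^[t] x0)) :
    S.card ≤ 2 * (n / w + 1) + P.card * (2 * (2 * M)) +
      2 ^ w * (w + 1) * P.card ^ 2 * (2 * K) := by
  have hch : ∀ y : ℤ, ∃ (q : ℤ × ℤ) (a : ℕ), SpN P m y → q ∈ P ∧ q.2 ≠ 0 ∧
      y - q.1 = q.2 * (a : ℤ) ^ m ∧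
      ∀ i : ℕ, 1 ≤ i → ∀ r ∈ P, T^[i] q.1 = r.1 → ¬ (2 : ℤ) ^ i ∣ y - q.1 := by
    intro y
    by_cases h : SpN P m y
    · obtain ⟨q, a, h1⟩ := h
      exact ⟨q, a, fun _ => h1⟩
    · exact ⟨0, 0, fun h' => absurd h' h⟩
  choose qf af hqa using hch
  set Bd := S.filter fun t => ¬ ∃ i j, 1 ≤ i ∧ i < j ∧ j ≤ w ∧ t + i ∈ S ∧ t + j ∈ S with hBd
  set Gd := S.filter fun t => ∃ i j, 1 ≤ i ∧ i < j ∧ j ≤ w ∧ t + i ∈ S ∧ t + j ∈ S with hGd
  have hgd : ∀ t : ℕ, ∃ i, t ∈ Gd → 1 ≤ i ∧ i ≤ w ∧ t + i ∈ S := by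
    intro t
    by_cases h : t ∈ Gd
    · obtain ⟨i, j, h1, h2, h3, h4, h5⟩ := (Finset.mem_filter.1 h).2
      exact ⟨i, fun _ => ⟨h1, by omega, h4⟩⟩
    · exact ⟨0, fun h' => absurd h' h⟩
  choose ti htij using hgd
  have hcard : S.card = Gd.card + Bd.card := (Finset.card_filter_add_card_filter_not _).symm
  set Sm := Gd.filter fun t => af (T^[t] x0) < 2 * (2 * M) with hSm
  set Lg := Gd.filter fun t => ¬ af (T^[t] x0) < 2 * (2 * M) with hLg
  have hcard2 : Gd.card = Sm.card + Lg.card := (Finset.card_filter_add_card_filter_not _).symm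
  have hGS : ∀ t ∈ Gd, t ∈ S := fun t ht => (Finset.mem_filter.1 ht).1
  have hsf : ∀ t ∈ S, qf (T^[t] x0) ∈ P := fun t ht => (hqa _ (hsp t ht)).1
  have hSmc : Sm.card ≤ P.card * (2 * (2 * M)) := by
    have h1 : Sm.card ≤ (P ×ˢ range (2 * (2 * M))).card := by
      apply Finset.card_le_card_of_injOn (fun t => (qf (T^[t] x0), af (T^[t] x0)))
      · intro t ht
        have ht' := Finset.mem_filter.1 (Finset.mem_coe.1 ht)
        rw [Finset.mem_coe, Finset.mem_product]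
        exact ⟨hsf t (hGS t ht'.1), Finset.mem_range.2 ht'.2⟩
      · intro t ht u hu htu
        have ht' := (Finset.mem_filter.1 (Finset.mem_coe.1 ht)).1
        have hu' := (Finset.mem_filter.1 (Finset.mem_coe.1 hu)).1
        simp only [Prod.mk.injEq] at htu
        have e1 := (hqa _ (hsp t (hGS t ht'))).2.2.1
        have e2 := (hqa _ (hsp u (hGS u hu'))).2.2.1
        rw [htu.1, htu.2, ← e2] at e1
        apply hinj (hS (hGS t ht')) (hS (hGS u hu'))
        simp only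
        linarith
    refine h1.trans ?_
    rw [Finset.card_product, Finset.card_range]
  -- large ones
  have hLgc : Lg.card ≤ (2 * K) * (2 ^ w * ((w + 1) * (P.card * P.card))) := by
    set D := (Finset.Ico (0 : ℤ) (2 ^ w)) ×ˢ (range (w + 1) ×ˢ (P ×ˢ P)) with hD
    let φ : ℕ → ℤ × ℕ × (ℤ × ℤ) × (ℤ × ℤ) := fun t => (T^[t] x0 % 2 ^ w, ti t,
      qf (T^[t] x0), qf (T^[t + ti t] x0))
    have hmaps : ∀ t ∈ Lg, φ t ∈ D := by
      intro t ht
      have ht' := (Finset.mem_filter.1 ht).1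
      obtain ⟨h1, h2, h4⟩ := htij t ht'
      have m1 := hsf t (hGS t ht')
      have m2 := hsf _ h4
      show (T^[t] x0 % 2 ^ w, ti t, qf (T^[t] x0), qf (T^[t + ti t] x0)) ∈ D
      rw [hD, Finset.mem_product, Finset.mem_product, Finset.mem_product]
      exact ⟨Finset.mem_Ico.2 ⟨Int.emod_nonneg _ (by positivity),
        Int.emod_lt_of_pos _ (by positivity)⟩, Finset.mem_range.2 (by simp only; omega),
        m1, m2⟩
    have hfib : ∀ d ∈ D, (Lg.filter fun t => φ t = d).card ≤ 2 * K := by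
      intro d _
      set F := Lg.filter fun t => φ t = d with hF
      rcases F.eq_empty_or_nonempty with he | ⟨t0, ht0⟩
      · rw [he]; simp
      have hφ : ∀ t ∈ F, φ t = φ t0 := by
        intro t ht
        rw [(Finset.mem_filter.1 ht).2, (Finset.mem_filter.1 ht0).2]
      have hFL : ∀ t ∈ F, t ∈ Lg := fun t ht => (Finset.mem_filter.1 ht).1
      have hFG : ∀ t ∈ F, t ∈ Gd := fun t ht => (Finset.mem_filter.1 (hFL t ht)).1
      have hFS : ∀ t ∈ F, t ∈ S := fun t ht => hGS t (hFG t ht)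
      have hinjF : Set.InjOn (fun i => T^[i] x0) (F : Set ℕ) := by
        intro t ht u hu h
        exact hinj (hS (hFS t ht)) (hS (hFS u hu)) h
      rw [← Finset.card_image_of_injOn hinjF]
      obtain ⟨g1, g3, g4⟩ := htij t0 (hFG t0 ht0)
      have hcomp : ∀ t ∈ F, T^[t] x0 % 2 ^ w = T^[t0] x0 % 2 ^ w ∧ ti t = ti t0 ∧
          qf (T^[t] x0) = qf (T^[t0] x0) ∧ qf (T^[t + ti t0] x0) = qf (T^[t0 + ti t0] x0) := by
        intro t ht
        have h := hφ t ht
        simp only [φ, Prod.mk.injEq] at h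
        obtain ⟨h1, h2, h4, h5⟩ := h
        rw [h2] at h5
        exact ⟨h1, h2, h4, h5⟩
      have hiS : ∀ t ∈ F, t + ti t0 ∈ S := by
        intro t ht
        obtain ⟨c1, c2, c4, c5⟩ := hcomp t ht
        obtain ⟨_, _, g4'⟩ := htij t (hFG t ht)
        rw [c2] at g4'
        exact g4'
      have q0 := hqa _ (hsp _ (hFS t0 ht0))
      have q1 := hqa _ (hsp _ g4)
      apply class_three (w := w) (i := ti t0) (m := m) (k1 := (qf (T^[t0] x0)).1)
        (k2 := (qf (T^[t0 + ti t0] x0)).1)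
        (s1 := (qf (T^[t0] x0)).2) (s2 := (qf (T^[t0 + ti t0] x0)).2) (B := B)
        hm g3 (hB _ q0.1) (hB _ q1.1) q0.2.1 hM
        _ af (fun x => af (T^[ti t0] x))
      · intro x hx y hy
        obtain ⟨t, ht, rfl⟩ := Finset.mem_image.1 hx
        obtain ⟨u, hu, rfl⟩ := Finset.mem_image.1 hy
        have h : T^[t] x0 % 2 ^ w = T^[u] x0 % 2 ^ w := by
          rw [(hcomp t ht).1, (hcomp u hu).1]
        exact Int.dvd_of_emod_eq_zero (Int.emod_eq_emod_iff_emod_sub_eq_zero.1 h)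
      · intro x hx
        obtain ⟨t, ht, rfl⟩ := Finset.mem_image.1 hx
        have hst := (hqa _ (hsp t (hFS t ht))).2.2.2
        have c4 := (hcomp t ht).2.2.1
        intro h
        obtain ⟨h1, h2⟩ := ec_zero h
        rw [← c4] at h1 h2
        exact hst _ g1 _ q1.1 h1 h2
      · intro x hx
        obtain ⟨t, ht, rfl⟩ := Finset.mem_image.1 hx
        obtain ⟨c1, c2, c4, c5⟩ := hcomp t ht
        refine ⟨?_, ?_⟩
        · rw [← c4]
          exact (hqa _ (hsp t (hFS t ht))).2.2.1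
        · simp only [← Function.iterate_add_apply]
          rw [add_comm (ti t0) t, ← c5]
          exact (hqa _ (hsp _ (hiS t ht))).2.2.1
      · intro x hx
        obtain ⟨t, ht, rfl⟩ := Finset.mem_image.1 hx
        have := (Finset.mem_filter.1 (hFL t ht)).2
        omega
      · intro x hx
        obtain ⟨t, ht, rfl⟩ := Finset.mem_image.1 hx
        exact hup t (Finset.mem_range.1 (hS (hFS t ht))) _ q0.1
    have h1 := Finset.card_le_mul_card_image_of_maps_to hmaps (2 * K) hfib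
    refine h1.trans (le_of_eq ?_)
    have hJ : (Finset.Ico (0 : ℤ) (2 ^ w)).card = 2 ^ w := by
      rw [Int.card_Ico, sub_zero]
      have : ((2 : ℤ) ^ w) = ((2 ^ w : ℕ) : ℤ) := by push_cast; rfl
      rw [this, Int.toNat_natCast]
    rw [hD]
    simp only [Finset.card_product, hJ, Finset.card_range]
  have hbad : Bd.card ≤ 2 * (n / w + 1) := by
    rw [hBd]; convert bad_count hw S hS
  rw [hcard, hcard2]
  have h5 : (2 * K) * (2 ^ w * ((w + 1) * (P.card * P.card))) =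
      2 ^ w * (w + 1) * P.card ^ 2 * (2 * K) := by ring
  rw [h5] at hLgc
  omega

end Pool.Agent.V5helper5.SQ2
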