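import Mathlib
import Pool.Agent.V5helper5.SQ2.Count
import Pool.Agent.V5helper5.SQ.Cyc

set_option autoImplicit false

namespace Pool.Agent.V5helper5.SQ2

open Finset Pool.Agent.V5helper5.SQ

/-- real form of a special element; `P` is a set of pairs (centre, multiplier) -/
def Sp2 (P : Finset (ℤ × ℤ)) (m : ℕ) (y : ℤ) : Prop :=
  ∃ k s a : ℤ, (k, s) ∈ P ∧ s ≠ 0 ∧ y = k + s * a ^ m ∧
    ∀ i : ℕ, 1 ≤ i → (∃ s' : ℤ, (T^[i] k, s') ∈ P) → ¬ (2 : ℤ) ^ i ∣ y - k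

/-- closing under the change of sign of the multiplier -/
def dbl (P : Finset (ℤ × ℤ)) : Finset (ℤ × ℤ) := P ∪ P.image (fun q => (q.1, -q.2))

lemma dbl_card (P : Finset (ℤ × ℤ)) : (dbl P).card ≤ 2 * P.card := by
  unfold dbl
  refine (Finset.card_union_le _ _).trans ?_
  have := Finset.card_image_le (s := P) (f := fun q : ℤ × ℤ => (q.1, -q.2))
  omega

lemma dbl_fst {P : Finset (ℤ × ℤ)} {q : ℤ × ℤ} (hq : q ∈ dbl P) : ∃ s : ℤ, (q.1, s) ∈ P := by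
  unfold dbl at hq
  rcases Finset.mem_union.1 hq with h | h
  · exact ⟨q.2, h⟩
  · obtain ⟨r, hr, rfl⟩ := Finset.mem_image.1 h
    exact ⟨r.2, hr⟩

lemma Sp2.toN {P : Finset (ℤ × ℤ)} {m : ℕ} {y : ℤ} (h : Sp2 P m y) : SpN (dbl P) m y := by
  obtain ⟨k, s, a, hP, hs, he, h2⟩ := h
  have hreg : ∀ i : ℕ, 1 ≤ i → ∀ r ∈ dbl P, T^[i] k = r.1 → ¬ (2 : ℤ) ^ i ∣ y - k := by
    intro i hi r hr hk
    obtain ⟨s', hs'⟩ := dbl_fst hr
    exact h2 i hi ⟨s', by rw [hk]; exact hs'⟩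
  rcases le_or_gt 0 a with ha | ha
  · refine ⟨(k, s), a.toNat, Finset.mem_union_left _ hP, hs, ?_, hreg⟩
    simp only
    rw [Int.toNat_of_nonneg ha, he]; ring
  · rcases Nat.even_or_odd m with hm | hm
    · refine ⟨(k, s), (-a).toNat, Finset.mem_union_left _ hP, hs, ?_, hreg⟩
      simp only
      rw [Int.toNat_of_nonneg (by omega), he, hm.neg_pow]; ring
    · refine ⟨(k, -s), (-a).toNat, Finset.mem_union_right _ (Finset.mem_image.2 ⟨(k, s), hP, rfl⟩),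
        neg_ne_zero.2 hs, ?_, hreg⟩
      simp only
      rw [Int.toNat_of_nonneg (by omega), he, hm.neg_pow]; ring

/-- the analytic part -/
lemma asym_core (r : ℕ) (hr : r = 2 ∨ r = 3) {c d ε κ : ℝ} (hc0 : 0 ≤ c) (hε : 0 < ε)
    (hκ : 0 ≤ κ) (h1 : r * c + ε < 1) (h2 : c + (r - 1 : ℕ) * d < 1) (hd0 : 0 ≤ d) :
    ∃ C : ℝ, 0 < C ∧ ∀ n N D K σ : ℕ, 2 ≤ n → (N : ℝ) ≤ 2 * (n : ℝ) ^ c → (D : ℝ) ≤ (n : ℝ) ^ d →
      (K : ℝ) ≤ κ * (n : ℝ) ^ ε → σ ≤ n →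
      (∀ w : ℕ, 1 ≤ w → σ ≤ 2 * (n / w + 1) + N * (12 * (3 ^ w * (1 + 2 * D)) ^ (r - 1)) +
        2 ^ w * (w + 1) ^ 2 * N ^ r * (2 * K)) →
      (σ : ℝ) ≤ C * (n / Real.log n) := by
  set ρ : ℝ := max (r * c + ε) (c + (r - 1 : ℕ) * d) with hρ
  have hρ1 : ρ < 1 := max_lt h1 h2
  set η : ℝ := (1 - ρ) / 2 with hη
  have hη0 : 0 < η := by rw [hη]; linarith
  refine ⟨12 / η + 2 + (216 + 16 * κ) / η + 3 / η, by positivity, ?_⟩
  intro n N D K σ hn hN hD hK hσ hcount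
  have hnR : (2 : ℝ) ≤ n := by exact_mod_cast hn
  have hn0 : (0 : ℝ) < n := by linarith
  have hn1 : (1 : ℝ) ≤ n := by linarith
  set L : ℝ := Real.log n with hL
  have hLhalf : 1 / 2 < L := by
    have h1 : Real.log 2 ≤ L := Real.log_le_log (by norm_num) hnR
    linarith [Real.log_two_gt_d9]
  have hL0 : 0 < L := by linarith
  have hnL : 0 < n / L := by positivity
  have hLn : L ≤ n := by
    have := Real.log_le_sub_one_of_pos hn0
    rw [← hL] at this; linarith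
  have hn_le : 1 ≤ n / L := by rw [le_div_iff₀ hL0]; linarith
  set w := ⌊η * L / 3⌋₊ with hw
  rcases Nat.eq_zero_or_pos w with hw0 | hw1
  · have h1 : η * L / 3 < 1 := by
      rw [hw] at hw0
      exact Nat.floor_eq_zero.1 hw0
    have h2 : (σ : ℝ) ≤ n := by exact_mod_cast hσ
    have h3 : (n : ℝ) ≤ 3 / η * (n / L) := by
      rw [div_mul_div_comm, le_div_iff₀ (by positivity)]
      nlinarith
    have h4 : 0 ≤ 12 / η + 2 + (216 + 16 * κ) / η := by positivity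
    nlinarith [mul_nonneg h4 hnL.le]
  · have hnc : 1 ≤ (n : ℝ) ^ c := Real.one_le_rpow hn1 hc0
    have hnd : 1 ≤ (n : ℝ) ^ d := Real.one_le_rpow hn1 hd0
    have hcR : (σ : ℝ) ≤ 2 * ((n / w : ℕ) + 1) + N * (12 * (3 ^ w * (1 + 2 * D)) ^ (r - 1)) +
        2 ^ w * (w + 1) ^ 2 * N ^ r * (2 * K) := by exact_mod_cast hcount w hw1
    have hwR : (1 : ℝ) ≤ w := by exact_mod_cast hw1
    have hwle : (w : ℝ) ≤ η * L / 3 := Nat.floor_le (by positivity)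
    have hwlt : η * L / 3 < w + 1 := Nat.lt_floor_add_one _
    have hw6 : η * L / 6 ≤ w := by linarith
    have b1 : ((n / w : ℕ) : ℝ) ≤ 6 / η * (n / L) := by
      calc ((n / w : ℕ) : ℝ) ≤ (n : ℝ) / w := Nat.cast_div_le
        _ ≤ n / (η * L / 6) := div_le_div_of_nonneg_left hn0.le (by positivity) hw6
        _ = 6 / η * (n / L) := by field_simp
    -- `16 ^ w ≤ n ^ (η)`; we keep half of the exponent for the logarithm
    have b16 : (16 : ℝ) ^ w ≤ (n : ℝ) ^ η := by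
      have h1 : (16 : ℝ) ≤ Real.exp 3 := by
        have h2 : Real.exp 3 = Real.exp 1 ^ 3 := by
          rw [← Real.exp_nat_mul]; norm_num
        rw [h2]
        have h3 := Real.exp_one_gt_d9
        have h4 : (2.7 : ℝ) ^ 3 ≤ Real.exp 1 ^ 3 := pow_le_pow_left₀ (by norm_num) (by linarith) 3
        norm_num at h4 ⊢
        linarith
      calc (16 : ℝ) ^ w ≤ Real.exp 3 ^ w := pow_le_pow_left₀ (by norm_num) h1 w
        _ = Real.exp (w * 3) := by rw [← Real.exp_nat_mul]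
        _ ≤ Real.exp (L * η) := by
            apply Real.exp_le_exp.2
            linarith
        _ = (n : ℝ) ^ η := by rw [Real.rpow_def_of_pos hn0]
    have b9 : (9 : ℝ) ^ w ≤ (n : ℝ) ^ η :=
      (pow_le_pow_left₀ (by norm_num) (by norm_num) w).trans b16
    have b8 : (2 : ℝ) ^ w * (w + 1) ^ 2 ≤ (n : ℝ) ^ η := by
      have h1 : ((w : ℝ) + 1) ≤ 2 ^ w := by
        have : w + 1 ≤ 2 ^ w := Nat.lt_two_pow_self
        exact_mod_cast this
      have h2 : ((w : ℝ) + 1) ^ 2 ≤ (2 ^ w) ^ 2 := pow_le_pow_left₀ (by positivity) h1 2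
      calc (2 : ℝ) ^ w * (w + 1) ^ 2 ≤ 2 ^ w * (2 ^ w) ^ 2 :=
            mul_le_mul_of_nonneg_left h2 (by positivity)
        _ = 8 ^ w := by rw [← pow_mul, mul_comm w 2, pow_mul, ← mul_pow]; norm_num
        _ ≤ 16 ^ w := pow_le_pow_left₀ (by norm_num) (by norm_num) w
        _ ≤ _ := b16
    set G : ℝ := (n : ℝ) ^ (ρ + η) with hG
    have hG0 : 0 < G := by positivity
    have hrR : (r : ℝ) = 2 ∨ (r : ℝ) = 3 := by
      rcases hr with h | h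
      · left; rw [h]; norm_num
      · right; rw [h]; norm_num
    have bG2 : (N : ℝ) * (12 * (3 ^ w * (1 + 2 * D)) ^ (r - 1)) ≤ 216 * G := by
      have h3 : (3 : ℝ) ^ w * (1 + 2 * D) ≤ (3 ^ w * 3) * (n : ℝ) ^ d := by
        rw [mul_assoc]
        apply mul_le_mul_of_nonneg_left _ (by positivity)
        linarith
      have h4 : ((3 : ℝ) ^ w * (1 + 2 * D)) ^ (r - 1) ≤
          (3 ^ w * 3) ^ (r - 1) * ((n : ℝ) ^ d) ^ (r - 1) := by
        rw [← mul_pow]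
        exact pow_le_pow_left₀ (by positivity) h3 _
      have h5 : ((3 : ℝ) ^ w * 3) ^ (r - 1) ≤ 9 * 9 ^ w := by
        have h6 : (1 : ℝ) ≤ 3 ^ w * 3 := by
          have : (1 : ℝ) ≤ 3 ^ w := one_le_pow₀ (by norm_num)
          linarith
        have h7 : ((3 : ℝ) ^ w * 3) ^ (r - 1) ≤ (3 ^ w * 3) ^ 2 :=
          pow_le_pow_right₀ h6 (by omega)
        refine h7.trans (le_of_eq ?_)
        rw [mul_pow, ← pow_mul, mul_comm w 2, pow_mul]; norm_num; ring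
      have h8 : ((n : ℝ) ^ d) ^ (r - 1) = (n : ℝ) ^ (((r - 1 : ℕ) : ℝ) * d) := by
        rw [← Real.rpow_natCast, ← Real.rpow_mul hn0.le]; congr 1; ring
      rw [h8] at h4
      have h9 : (n : ℝ) ^ c * ((n : ℝ) ^ η * (n : ℝ) ^ (((r - 1 : ℕ) : ℝ) * d)) ≤ G := by
        rw [← Real.rpow_add hn0, ← Real.rpow_add hn0]
        apply Real.rpow_le_rpow_of_exponent_le hn1
        have : c + ((r - 1 : ℕ) : ℝ) * d ≤ ρ := le_max_right _ _
        linarith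
      calc (N : ℝ) * (12 * (3 ^ w * (1 + 2 * D)) ^ (r - 1))
          ≤ (2 * (n : ℝ) ^ c) * (12 * ((9 * (n : ℝ) ^ η) * (n : ℝ) ^ (((r - 1 : ℕ) : ℝ) * d))) := by
            apply mul_le_mul hN _ (by positivity) (by positivity)
            apply mul_le_mul_of_nonneg_left _ (by norm_num)
            refine h4.trans ?_
            apply mul_le_mul_of_nonneg_right _ (by positivity)
            linarith
        _ = 216 * ((n : ℝ) ^ c * ((n : ℝ) ^ η * (n : ℝ) ^ (((r - 1 : ℕ) : ℝ) * d))) := by ring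
        _ ≤ _ := by linarith
    have bG3 : (2 : ℝ) ^ w * (w + 1) ^ 2 * N ^ r * (2 * K) ≤ 16 * κ * G := by
      have h3 : (N : ℝ) ^ r ≤ (2 * (n : ℝ) ^ c) ^ r := pow_le_pow_left₀ (Nat.cast_nonneg _) hN r
      have h4 : (2 * (n : ℝ) ^ c) ^ r ≤ 8 * (n : ℝ) ^ (r * c) := by
        rw [mul_pow]
        have h5 : (2 : ℝ) ^ r ≤ 8 := by
          rcases hr with h | h <;> rw [h] <;> norm_num
        have h6 : ((n : ℝ) ^ c) ^ r = (n : ℝ) ^ (r * c) := by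
          rw [← Real.rpow_natCast, ← Real.rpow_mul hn0.le]; congr 1; ring
        rw [h6]
        exact mul_le_mul_of_nonneg_right h5 (by positivity)
      have h9 : (n : ℝ) ^ η * ((n : ℝ) ^ (r * c) * (n : ℝ) ^ ε) ≤ G := by
        rw [← Real.rpow_add hn0, ← Real.rpow_add hn0]
        apply Real.rpow_le_rpow_of_exponent_le hn1
        have : r * c + ε ≤ ρ := le_max_left _ _
        linarith
      calc (2 : ℝ) ^ w * (w + 1) ^ 2 * N ^ r * (2 * K)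
          ≤ (n : ℝ) ^ η * (8 * (n : ℝ) ^ (r * c)) * (2 * (κ * (n : ℝ) ^ ε)) := by
            apply mul_le_mul _ _ (by positivity) (by positivity)
            · exact mul_le_mul b8 (h3.trans h4) (by positivity) (by positivity)
            · linarith
        _ = 16 * κ * ((n : ℝ) ^ η * ((n : ℝ) ^ (r * c) * (n : ℝ) ^ ε)) := by ring
        _ ≤ _ := mul_le_mul_of_nonneg_left h9 (by positivity)
    have bL : G ≤ 1 / η * (n / L) := by
      have h1 : L ≤ (n : ℝ) ^ η / η := Real.log_le_rpow_div hn0.le hη0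
      have h3 : G * (n : ℝ) ^ η = n := by
        rw [hG, ← Real.rpow_add hn0]
        have : ρ + η + η = 1 := by rw [hη]; ring
        rw [this, Real.rpow_one]
      have h4 : G * L ≤ n / η := by
        calc G * L ≤ G * ((n : ℝ) ^ η / η) := mul_le_mul_of_nonneg_left h1 hG0.le
          _ = (G * (n : ℝ) ^ η) / η := by ring
          _ = _ := by rw [h3]
      have h5 : 1 / η * (n / L) = (n / η) / L := by field_simp
      rw [h5, le_div_iff₀ hL0]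
      exact h4
    have fin1 : (σ : ℝ) ≤ 2 * (6 / η * (n / L) + 1) + 216 * G + 16 * κ * G := by
      linarith
    have fin2 : (216 + 16 * κ) * G ≤ (216 + 16 * κ) * (1 / η * (n / L)) :=
      mul_le_mul_of_nonneg_left bL (by positivity)
    have e1 : (12 / η + 2 + (216 + 16 * κ) / η + 3 / η) * (n / L) =
        2 * (6 / η * (n / L)) + 2 * (n / L) + (216 + 16 * κ) *
        (1 / η * (n / L)) + 3 / η * (n / L) := by ring
    rw [e1]
    have h0 : 0 ≤ 3 / η * (n / L) := by positivity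
    linarith

/-- the number of doublings -/
noncomputable def KK (n : ℕ) (ε : ℝ) : ℕ := (Nat.log 2 n + 1) + (2 * ⌈(n : ℝ) ^ ε⌉₊ + 1)

lemma KK_le {n : ℕ} (hn : 2 ≤ n) {ε : ℝ} (hε : 0 < ε) :
    (KK n ε : ℝ) ≤ (2 / ε + 6) * (n : ℝ) ^ ε := by
  have hnR : (2 : ℝ) ≤ n := by exact_mod_cast hn
  have hn0 : (0 : ℝ) < n := by linarith
  have hn1 : (1 : ℝ) ≤ n := by linarith
  have hu : 1 ≤ (n : ℝ) ^ ε := Real.one_le_rpow hn1 hε.le
  have h1 : (Nat.log 2 n : ℝ) ≤ 2 * Real.log n := by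
    have h2 : 2 ^ (Nat.log 2 n) ≤ n := Nat.pow_log_le_self 2 (by omega)
    have h3 : ((2 : ℝ) ^ (Nat.log 2 n)) ≤ n := by exact_mod_cast h2
    have h4 := Real.log_le_log (by positivity) h3
    rw [Real.log_pow] at h4
    have h5 := Real.log_two_gt_d9
    have h6 : (0 : ℝ) ≤ (Nat.log 2 n : ℝ) := Nat.cast_nonneg _
    nlinarith
  have h2 : Real.log n ≤ (n : ℝ) ^ ε / ε := Real.log_le_rpow_div hn0.le hε
  have h3 : (⌈(n : ℝ) ^ ε⌉₊ : ℝ) ≤ (n : ℝ) ^ ε + 1 := (Nat.ceil_lt_add_one (by positivity)).le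
  unfold KK
  push_cast
  have e : (2 / ε + 6) * (n : ℝ) ^ ε = 2 * ((n : ℝ) ^ ε / ε) + 6 * (n : ℝ) ^ ε := by ring
  rw [e]
  linarith

lemma up_two {n : ℕ} (hn : 2 ≤ n) {x0 k : ℤ} {ε : ℝ} (hε : 0 < ε)
    (hk : |(k : ℝ)| ≤ n) (hx : |(x0 : ℝ)| ≤ Real.exp (Real.exp ((n : ℝ) ^ ε))) :
    ∀ t < n, |T^[t] x0 - k| < 2 ^ (2 ^ KK n ε) := by
  intro t ht
  have hk1 : |k| ≤ (n : ℤ) := by exact_mod_cast hk
  set v : ℕ := ⌈(n : ℝ) ^ ε⌉₊ with hv
  have hv1 : (n : ℝ) ^ ε ≤ v := Nat.le_ceil _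
  have h4 : Real.exp 1 ≤ 4 := by linarith [Real.exp_one_lt_d9]
  have hE : ∀ (u : ℝ) (m : ℕ), u ≤ m → Real.exp u ≤ (4 : ℝ) ^ m := by
    intro u m hu
    calc Real.exp u ≤ Real.exp m := Real.exp_le_exp.2 hu
      _ = Real.exp 1 ^ m := by rw [← Real.exp_nat_mul, mul_one]
      _ ≤ (4 : ℝ) ^ m := pow_le_pow_left₀ (Real.exp_pos _).le h4 _
  have h5 : Real.exp ((n : ℝ) ^ ε) ≤ ((4 ^ v : ℕ) : ℝ) := by
    push_cast; exact hE _ _ hv1
  have h6 := hE _ _ h5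
  have hx1 : |x0| ≤ 2 ^ (2 ^ (2 * v + 1)) := by
    have h3 : |(x0 : ℝ)| ≤ (2 : ℝ) ^ (2 ^ (2 * v + 1)) := by
      refine (hx.trans h6).trans (le_of_eq ?_)
      rw [show (4 : ℝ) = 2 ^ 2 by norm_num, ← pow_mul]
      congr 1
      rw [pow_succ 2 (2 * v), pow_mul]; norm_num; ring
    exact_mod_cast h3
  have h2n : (n : ℤ) < 2 ^ n := by exact_mod_cast Nat.lt_two_pow_self
  have hit := abs_iterate_le x0 t
  have h1 : (2 : ℤ) ^ t ≤ 2 ^ n := pow_le_pow_right₀ (by norm_num) ht.le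
  have h3 : |T^[t] x0| ≤ 2 ^ (n + 2 ^ (2 * v + 1)) := by
    rw [pow_add]
    exact hit.trans (mul_le_mul h1 hx1 (abs_nonneg _) (by positivity))
  have h7 : (2 : ℤ) ^ n ≤ 2 ^ (n + 2 ^ (2 * v + 1)) :=
    pow_le_pow_right₀ (by norm_num) (Nat.le_add_right _ _)
  have h8 : |T^[t] x0 - k| < 2 ^ (n + 2 ^ (2 * v + 1) + 1) := by
    have h9 : |T^[t] x0 - k| ≤ |T^[t] x0| + |k| := abs_sub _ _
    rw [pow_succ]
    linarith
  refine h8.trans_le (pow_le_pow_right₀ (by norm_num) ?_)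
  unfold KK
  rw [← hv]
  have hpa : 2 ^ (Nat.log 2 n + 1 + (2 * v + 1)) = 2 ^ (Nat.log 2 n + 1) * 2 ^ (2 * v + 1) :=
    pow_add 2 _ _
  rw [hpa]
  have h10 : n + 1 ≤ 2 ^ (Nat.log 2 n + 1) := Nat.lt_pow_succ_log_self (by norm_num) n
  have h11 : 2 ≤ 2 ^ (2 * v + 1) := by
    calc 2 = 2 ^ 1 := by norm_num
      _ ≤ 2 ^ (2 * v + 1) := Nat.pow_le_pow_right (by norm_num) (by omega)
  have h12 : 2 ≤ 2 ^ (Nat.log 2 n + 1) := by omega
  nlinarith

/-- the bound for `m ≥ r'` (`r = 3` for `m ≥ 2`, `r = 2` for `m ≥ 3`) -/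
theorem asym_all (r : ℕ) (hr : r = 2 ∨ r = 3) {c d ε : ℝ} (hc0 : 0 ≤ c) (hd0 : 0 ≤ d) (hε : 0 < ε)
    (h1 : r * c + ε < 1) (h2 : c + (r - 1 : ℕ) * d < 1) :
    ∃ C : ℝ, 0 < C ∧ ∀ m : ℕ, 5 ≤ m + r → 2 ≤ m → ∀ (P : Finset (ℤ × ℤ)) (x0 : ℤ) (n : ℕ), 2 ≤ n →
      (P.card : ℝ) ≤ (n : ℝ) ^ c → (∀ q ∈ P, |(q.1 : ℝ)| ≤ (n : ℝ) ^ d) →
      |(x0 : ℝ)| ≤ Real.exp (Real.exp ((n : ℝ) ^ ε)) →
      Set.InjOn (fun i => T^[i] x0) (range n : Finset ℕ) →
      ∀ S : Finset ℕ, S ⊆ range n → (∀ t ∈ S, Sp2 P m (T^[t] x0)) →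
        (S.card : ℝ) ≤ C * (n / Real.log n) := by
  obtain ⟨C, hC0, hC⟩ := asym_core r hr (κ := 2 / ε + 6) hc0 hε (by positivity) h1 h2 hd0
  refine ⟨C, hC0, ?_⟩
  intro m hmr hm P x0 n hn hP hB hx hinj S hS hsp
  have hnR : (2 : ℝ) ≤ n := by exact_mod_cast hn
  have hn1 : (1 : ℝ) ≤ n := by linarith
  have hr1 : 1 ≤ ((r - 1 : ℕ) : ℝ) := by
    rcases hr with h | h <;> rw [h] <;> norm_num
  have hd1 : d ≤ 1 := by nlinarith
  have hB' : ∀ q ∈ dbl P, |(q.1 : ℝ)| ≤ (n : ℝ) ^ d := by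
    intro q hq
    obtain ⟨s, hs⟩ := dbl_fst hq
    exact hB (q.1, s) hs
  set D : ℕ := ⌊(n : ℝ) ^ d⌋₊ with hD
  have hBD : ∀ q ∈ dbl P, |q.1| ≤ (D : ℤ) := by
    intro q hq
    have h3 : (q.1.natAbs : ℝ) ≤ (n : ℝ) ^ d := by
      rw [Nat.cast_natAbs, Int.cast_abs]; exact hB' q hq
    have h4 : q.1.natAbs ≤ ⌊(n : ℝ) ^ d⌋₊ := Nat.le_floor h3
    have h5 : ((q.1.natAbs : ℕ) : ℤ) ≤ (⌊(n : ℝ) ^ d⌋₊ : ℤ) := by exact_mod_cast h4
    rwa [Int.natCast_natAbs] at h5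
  have hup : ∀ t < n, ∀ q ∈ dbl P, |T^[t] x0 - q.1| < 2 ^ (2 ^ KK n ε) := by
    intro t ht q hq
    apply up_two hn hε _ hx t ht
    refine (hB' q hq).trans ?_
    calc (n : ℝ) ^ d ≤ (n : ℝ) ^ (1 : ℝ) := Real.rpow_le_rpow_of_exponent_le hn1 hd1
      _ = n := Real.rpow_one _
  have hN : ((dbl P).card : ℝ) ≤ 2 * (n : ℝ) ^ c := by
    have : ((dbl P).card : ℝ) ≤ 2 * P.card := by exact_mod_cast dbl_card P
    linarith
  have hσ : S.card ≤ n := by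
    have := Finset.card_le_card hS
    rwa [Finset.card_range] at this
  apply hC n (dbl P).card D (KK n ε) S.card hn hN (Nat.floor_le (by positivity)) (KK_le hn hε) hσ
  intro w hw
  have hM : (3 : ℤ) ^ w * (1 + 2 * (D : ℤ)) ≤ ((3 ^ w * (1 + 2 * D) : ℕ) : ℤ) := by push_cast; rfl
  rcases hr with h | h
  · have hm3 : 3 ≤ m := by omega
    have := count_three (dbl P) hm3 hw hBD hM hinj hup S hS (fun t ht => (hsp t ht).toN)
    refine this.trans ?_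
    rw [h]
    have e1 : (dbl P).card * (2 * (2 * (3 ^ w * (1 + 2 * D)))) ≤
        (dbl P).card * (12 * (3 ^ w * (1 + 2 * D)) ^ (2 - 1)) := by
      apply Nat.mul_le_mul_left
      rw [show 2 - 1 = 1 by norm_num, pow_one]
      omega
    have e2 : 2 ^ w * (w + 1) * (dbl P).card ^ 2 * (2 * KK n ε) ≤
        2 ^ w * (w + 1) ^ 2 * (dbl P).card ^ 2 * (2 * KK n ε) := by
      apply Nat.mul_le_mul_right
      apply Nat.mul_le_mul_right
      apply Nat.mul_le_mul_left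
      nlinarith
    omega
  · have := count_two (dbl P) hm hw hBD hM hinj hup S hS (fun t ht => (hsp t ht).toN)
    refine this.trans (le_of_eq ?_)
    rw [h]
    have e1 : 2 * (6 * (3 ^ w * (1 + 2 * D)) ^ 2) = 12 * (3 ^ w * (1 + 2 * D)) ^ (3 - 1) := by
      rw [show 3 - 1 = 2 by norm_num]; ring
    rw [e1]

end Pool.Agent.V5helper5.SQ2
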