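import Mathlib
import Pool.Agent.V5helper5.SQ2.Asym

set_option autoImplicit false

namespace Pool.Agent.V5helper5.SQ2

open Finset Filter Pool.Agent.V5helper5.SQ

lemma one_le_div_log {n : ℕ} (hn : 2 ≤ n) : 1 ≤ (n : ℝ) / Real.log n := by
  have hnR : (2 : ℝ) ≤ n := by exact_mod_cast hn
  have hn0 : (0 : ℝ) < n := by linarith
  have hL0 : 0 < Real.log n := Real.log_pos (by linarith)
  have := Real.log_le_sub_one_of_pos hn0
  rw [le_div_iff₀ hL0]; linarith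

lemma large_pow {ε : ℝ} (hε : 0 < ε) : ∃ p0 : ℕ, ∀ p : ℕ, p0 ≤ p →
    (3 : ℝ) ^ p ≤ Real.exp (Real.exp ((p : ℝ) ^ ε)) := by
  have h1 : Tendsto (fun p : ℕ => ((p : ℝ)) ^ (ε / 2)) atTop atTop :=
    (tendsto_rpow_atTop (by positivity)).comp tendsto_natCast_atTop_atTop
  obtain ⟨p0, hp0⟩ := eventually_atTop.1 (h1.eventually_ge_atTop (2 / ε + 1))
  refine ⟨p0 + 1, fun p hp => ?_⟩
  have h2 := hp0 p (by omega)
  have hpR : (1 : ℝ) ≤ p := by exact_mod_cast (by omega : 1 ≤ p)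
  have hp0' : (0 : ℝ) < p := by linarith
  have h3 : Real.log p ≤ (p : ℝ) ^ (ε / 2) / (ε / 2) := Real.log_le_rpow_div hp0'.le (by positivity)
  have h4 : (p : ℝ) ^ ε = (p : ℝ) ^ (ε / 2) * (p : ℝ) ^ (ε / 2) := by
    rw [← Real.rpow_add hp0']; congr 1; ring
  have h5 : 1 ≤ (p : ℝ) ^ (ε / 2) := Real.one_le_rpow hpR (by positivity)
  have h6 : Real.log p + 1 ≤ (p : ℝ) ^ ε := by
    have e1 : (p : ℝ) ^ (ε / 2) / (ε / 2) = (2 / ε) * (p : ℝ) ^ (ε / 2) := by field_simp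
    rw [e1] at h3
    rw [h4]
    nlinarith
  have h7 : 2 * (p : ℝ) ≤ Real.exp ((p : ℝ) ^ ε) := by
    calc 2 * (p : ℝ) ≤ Real.exp 1 * p := by
          have := Real.exp_one_gt_d9
          nlinarith
      _ = Real.exp (Real.log p + 1) := by
          rw [Real.exp_add, Real.exp_log hp0']; ring
      _ ≤ _ := Real.exp_le_exp.2 h6
  have h8 : (3 : ℝ) ≤ Real.exp 2 := by linarith [Real.add_one_le_exp (2 : ℝ)]
  calc (3 : ℝ) ^ p ≤ Real.exp 2 ^ p := pow_le_pow_left₀ (by norm_num) h8 p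
    _ = Real.exp (p * 2) := by rw [← Real.exp_nat_mul]
    _ ≤ _ := Real.exp_le_exp.2 (by linarith)

theorem cyc_all (r : ℕ) (hr : r = 2 ∨ r = 3) {c d : ℝ} (hc0 : 0 ≤ c) (hd0 : 0 ≤ d)
    (h1 : r * c < 1) (h2 : c + (r - 1 : ℕ) * d < 1) :
    ∃ C : ℝ, 0 < C ∧ ∀ m : ℕ, 5 ≤ m + r → 2 ≤ m → ∀ Z : Finset ℤ, IsCyc Z → 2 ≤ Z.card →
      ∀ P : Finset (ℤ × ℤ), (P.card : ℝ) ≤ (Z.card : ℝ) ^ c →
      (∀ q ∈ P, |(q.1 : ℝ)| ≤ (Z.card : ℝ) ^ d) →
      ∀ F : Finset ℤ, F ⊆ Z → (∀ y ∈ F, Sp2 P m y) →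
        (F.card : ℝ) ≤ C * (Z.card / Real.log Z.card) := by
  classical
  set ε : ℝ := (1 - r * c) / 2 with hε
  have hε0 : 0 < ε := by rw [hε]; linarith
  obtain ⟨C, hC0, hC⟩ := asym_all r hr hc0 hd0 hε0 (by rw [hε]; linarith) h2
  obtain ⟨p0, hp0⟩ := large_pow hε0
  refine ⟨C + p0, by positivity, ?_⟩
  intro m hmr hm Z hZ hZ2 P hP hB F hF hsp
  have hlog := one_le_div_log hZ2
  have hlog0 : 0 ≤ (Z.card : ℝ) / Real.log Z.card := by linarith
  rcases lt_or_ge Z.card p0 with hlt | hge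
  · have h3 : (F.card : ℝ) ≤ p0 := by
      have h4 := Finset.card_le_card hF
      exact_mod_cast (by omega : F.card ≤ p0)
    nlinarith
  · obtain ⟨x, hp1, hx, hinj, himg, hxb⟩ := cyc_data hZ
    set p := Z.card with hp
    have hxe : |(x : ℝ)| ≤ Real.exp (Real.exp ((p : ℝ) ^ ε)) := by
      have h1 : |(x : ℝ)| ≤ (3 : ℝ) ^ p := by exact_mod_cast hxb
      exact h1.trans (hp0 p hge)
    set S := (range p).filter (fun t => T^[t] x ∈ F) with hS
    have hFS : F = S.image (fun t => T^[t] x) := by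
      ext y
      simp only [hS, Finset.mem_image, Finset.mem_filter, Finset.mem_range]
      constructor
      · intro hy
        have h1 : y ∈ (Finset.range p).image (fun i => T^[i] x) := himg ▸ hF hy
        obtain ⟨t, ht, rfl⟩ := Finset.mem_image.1 h1
        exact ⟨t, ⟨Finset.mem_range.1 ht, hy⟩, rfl⟩
      · rintro ⟨t, ⟨_, h⟩, rfl⟩
        exact h
    have hle : F.card ≤ S.card := by
      rw [hFS]; exact Finset.card_image_le
    have := hC m hmr hm P x p hZ2 hP hB hxe hinj S (Finset.filter_subset _ _)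
      (fun t ht => hsp _ (Finset.mem_filter.1 ht).2)
    have h5 : (F.card : ℝ) ≤ S.card := by exact_mod_cast hle
    have h6 : 0 ≤ (p0 : ℝ) * (p / Real.log p) := mul_nonneg (Nat.cast_nonneg _) hlog0
    nlinarith

theorem near_all (r : ℕ) (hr : r = 2 ∨ r = 3) {c d : ℝ} (hc0 : 0 ≤ c) (hd0 : 0 ≤ d)
    (h1 : r * (c + d) < 1) :
    ∃ C : ℝ, 0 < C ∧ ∀ m : ℕ, 5 ≤ m + r → 2 ≤ m → ∀ Z : Finset ℤ, IsCyc Z → 2 ≤ Z.card →
      ∀ Q : Finset ℤ, (Q.card : ℝ) ≤ (Z.card : ℝ) ^ c →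
      ∀ F : Finset ℤ, F ⊆ Z → (∀ y ∈ F, ∃ s ∈ Q, ∃ a : ℤ, (s * a ^ m) % 2 = 1 ∧
          |(y : ℝ) - s * a ^ m| ≤ (Z.card : ℝ) ^ d) →
        (F.card : ℝ) ≤ C * (Z.card / Real.log Z.card) := by
  classical
  have hr0 : (2 : ℝ) ≤ r := by rcases hr with h | h <;> rw [h] <;> norm_num
  have hr' : (((r - 1 : ℕ) : ℝ)) = r - 1 := by
    rcases hr with h | h <;> rw [h] <;> norm_num
  have hcd : c + d < 1 / r := by
    rw [lt_div_iff₀ (by linarith)]; linarith
  set γ : ℝ := (1 / r - (c + d)) / 2 with hγ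
  have hγ0 : 0 < γ := by rw [hγ]; linarith
  set c' : ℝ := c + d + γ with hc'
  have hc'1 : c' < 1 / r := by rw [hc', hγ]; linarith
  have hrc' : r * c' < 1 := by
    rw [lt_div_iff₀ (by linarith)] at hc'1; linarith
  have hd1 : d < 1 / r := by linarith
  have h2' : c' + (r - 1 : ℕ) * d < 1 := by
    rw [hr']
    have h3 : (r - 1) * d ≤ (r - 1) * (1 / r) := mul_le_mul_of_nonneg_left hd1.le (by linarith)
    have h4 : 1 / r + (r - 1) * (1 / r) = (1 : ℝ) := by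
      field_simp
      ring
    linarith
  obtain ⟨C, hC0, hC⟩ := cyc_all r hr (c := c') (d := d) (by positivity) hd0 hrc' h2'
  have ht : Tendsto (fun p : ℕ => ((p : ℝ)) ^ γ) atTop atTop :=
    (tendsto_rpow_atTop hγ0).comp tendsto_natCast_atTop_atTop
  obtain ⟨p0, hp0⟩ := eventually_atTop.1 (ht.eventually_ge_atTop 3)
  refine ⟨C + p0, by positivity, ?_⟩
  intro m hmr hm Z hZ hZ2 Q hQ F hF hsp
  have hlog := one_le_div_log hZ2
  have hlog0 : 0 ≤ (Z.card : ℝ) / Real.log Z.card := by linarith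
  rcases lt_or_ge Z.card p0 with hlt | hge
  · have h3 : (F.card : ℝ) ≤ p0 := by
      have h4 := Finset.card_le_card hF
      exact_mod_cast (by omega : F.card ≤ p0)
    nlinarith
  · have h3 := hp0 Z.card hge
    set p := Z.card with hp
    have hpR : (2 : ℝ) ≤ p := by exact_mod_cast hZ2
    have hp0R : (0 : ℝ) < p := by linarith
    set D : ℕ := ⌊(p : ℝ) ^ d⌋₊ with hD
    have hDle : (D : ℝ) ≤ (p : ℝ) ^ d := Nat.floor_le (by positivity)
    have hpd : 1 ≤ (p : ℝ) ^ d := Real.one_le_rpow (by linarith) hd0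
    set P : Finset (ℤ × ℤ) := (Finset.Icc (-(D : ℤ)) D) ×ˢ Q with hPdef
    have hPc : (P.card : ℝ) ≤ (p : ℝ) ^ c' := by
      have e1 : P.card = (2 * D + 1) * Q.card := by
        rw [hPdef, Finset.card_product, Int.card_Icc]
        congr 1; omega
      rw [e1]; push_cast
      calc (2 * (D : ℝ) + 1) * Q.card ≤ (3 * (p : ℝ) ^ d) * (p : ℝ) ^ c := by
            apply mul_le_mul _ hQ (Nat.cast_nonneg _) (by positivity)
            linarith
        _ = 3 * ((p : ℝ) ^ d * (p : ℝ) ^ c) := by ring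
        _ ≤ (p : ℝ) ^ γ * ((p : ℝ) ^ d * (p : ℝ) ^ c) :=
            mul_le_mul_of_nonneg_right h3 (by positivity)
        _ = (p : ℝ) ^ c' := by
            rw [← Real.rpow_add hp0R, ← Real.rpow_add hp0R]; congr 1; rw [hc']; ring
    have hB : ∀ q ∈ P, |(q.1 : ℝ)| ≤ (p : ℝ) ^ d := by
      intro q hq
      have h4 := (Finset.mem_product.1 hq).1
      rw [Finset.mem_Icc] at h4
      have h5 : |q.1| ≤ (D : ℤ) := abs_le.2 h4
      have h6 : |(q.1 : ℝ)| ≤ D := by exact_mod_cast h5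
      linarith
    have := hC m hmr hm Z hZ hZ2 P hPc hB F hF (by
      intro y hy
      obtain ⟨s, hs, a, hodd, hya⟩ := hsp y hy
      refine ⟨y - s * a ^ m, s, a, ?_, ?_, by ring, ?_⟩
      · rw [hPdef, Finset.mem_product]
        refine ⟨?_, hs⟩
        have h4 : |y - s * a ^ m| ≤ (D : ℤ) := by
          have h5 : ((y - s * a ^ m).natAbs : ℝ) ≤ (p : ℝ) ^ d := by
            rw [Nat.cast_natAbs, Int.cast_abs]; push_cast; exact hya
          have h6 : (y - s * a ^ m).natAbs ≤ ⌊(p : ℝ) ^ d⌋₊ := Nat.le_floor h5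
          have h7 : (((y - s * a ^ m).natAbs : ℕ) : ℤ) ≤ (⌊(p : ℝ) ^ d⌋₊ : ℤ) := by
            exact_mod_cast h6
          rwa [Int.natCast_natAbs] at h7
        exact Finset.mem_Icc.2 (abs_le.1 h4)
      · rintro rfl
        rw [zero_mul] at hodd
        omega
      · intro i hi _ hd2
        have h4 : (2 : ℤ) ∣ y - (y - s * a ^ m) := (dvd_pow_self 2 (by omega)).trans hd2
        have h5 : y - (y - s * a ^ m) = s * a ^ m := by ring
        rw [h5] at h4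
        omega)
    have h6 : 0 ≤ (p0 : ℝ) * (p / Real.log p) := mul_nonneg (Nat.cast_nonneg _) hlog0
    nlinarith

lemma finite_aux {C δ : ℝ} (hC : 0 < C) (hδ : 0 < δ) (P : Finset ℤ → Prop)
    (hP : ∀ Z, IsCyc Z → 2 ≤ Z.card → P Z → δ * Z.card ≤ C * (Z.card / Real.log Z.card)) :
    {Z : Finset ℤ | IsCyc Z ∧ P Z}.Finite := by
  obtain ⟨N, hN⟩ := exists_nat_gt (Real.exp (C / δ))
  apply (finite_small (N + 1)).subset
  rintro Z ⟨hZ, hPZ⟩
  refine ⟨hZ, ?_⟩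
  by_contra hcon
  push Not at hcon
  have h2 : 2 ≤ Z.card := by omega
  have h := hP Z hZ h2 hPZ
  have hpR : Real.exp (C / δ) < (Z.card : ℝ) := by
    have : (N : ℝ) < Z.card := by exact_mod_cast (by omega : N < Z.card)
    linarith
  have hp0 : (0 : ℝ) < Z.card := (Real.exp_pos _).trans hpR
  have hlog : C / δ < Real.log Z.card := by
    rw [← Real.log_exp (C / δ)]
    exact Real.log_lt_log (Real.exp_pos _) hpR
  have hlog0 : 0 < Real.log Z.card := (div_pos hC hδ).trans hlog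
  rw [mul_div_assoc', le_div_iff₀ hlog0] at h
  rw [div_lt_iff₀ hδ] at hlog
  nlinarith

lemma zero_card {Z : Finset ℤ} (hZ : IsCyc Z) (h0 : (0 : ℤ) ∈ Z) : Z.card ≤ 1 := by
  obtain ⟨x, hp1, hx, hinj, himg, hxb⟩ := cyc_data hZ
  set p := Z.card with hp
  have hT0 : ∀ i : ℕ, T^[i] 0 = 0 := by
    intro i
    apply Function.iterate_fixed
    rfl
  rw [himg] at h0
  obtain ⟨t, ht, ht0⟩ := Finset.mem_image.1 h0
  rw [Finset.mem_range] at ht
  have h1 : T^[p] x = 0 := by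
    have : p = (p - t) + t := by omega
    rw [this, Function.iterate_add_apply, ht0, hT0]
  have hx0 : x = 0 := by rw [← hx, h1]
  by_contra hcon
  have h2 : (0 : ℕ) = 1 := by
    apply hinj
    · exact Finset.mem_coe.2 (Finset.mem_range.2 (by omega))
    · exact Finset.mem_coe.2 (Finset.mem_range.2 (by omega))
    · simp only [hx0, hT0]
  omega

theorem finite_all (r : ℕ) (hr : r = 2 ∨ r = 3) {c : ℝ} (hc : r * c < 1) :
    {Z : Finset ℤ | IsCyc Z ∧ ∃ m : ℕ, (5 ≤ m + r ∧ 2 ≤ m) ∧ ∃ Q : Finset ℤ,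
      (Q.card : ℝ) ≤ (Z.card : ℝ) ^ c ∧
      ∀ y ∈ Z, y % 2 = 1 → ∃ s ∈ Q, ∃ a : ℤ, y = s * a ^ m}.Finite := by
  classical
  have hr0 : (2 : ℝ) ≤ r := by rcases hr with h | h <;> rw [h] <;> norm_num
  have hc' : r * (max c 0 + 0) < 1 := by
    rw [add_zero]
    rcases max_cases c 0 with h | h
    · rw [h.1]; exact hc
    · rw [h.1]; linarith
  obtain ⟨C, hC0, hC⟩ := near_all r hr (c := max c 0) (d := 0) (le_max_right _ _) le_rfl hc'
  apply finite_aux hC0 (δ := 1 / 2) (by norm_num)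
  rintro Z hZ hZ2 ⟨m, ⟨hmr, hm⟩, Q, hQ, h⟩
  have h0 : (0 : ℤ) ∉ Z := by
    intro h0
    have := zero_card hZ h0
    omega
  have h1 := half_odd hZ h0
  have hZR : (1 : ℝ) ≤ Z.card := by exact_mod_cast (by omega : 1 ≤ Z.card)
  have hQ' : (Q.card : ℝ) ≤ (Z.card : ℝ) ^ (max c 0) :=
    hQ.trans (Real.rpow_le_rpow_of_exponent_le hZR (le_max_left _ _))
  have h2 : ((Z.filter fun y => y % 2 ≠ 0).card : ℝ) ≤ C * (Z.card / Real.log Z.card) := by
    apply hC m hmr hm Z hZ hZ2 Q hQ' _ (Finset.filter_subset _ _)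
    intro y hy
    have hy' := Finset.mem_filter.1 hy
    have hy1 : y % 2 = 1 := by have := hy'.2; omega
    obtain ⟨s, hs, a, he⟩ := h y hy'.1 hy1
    refine ⟨s, hs, a, by rw [← he]; exact hy1, ?_⟩
    rw [Real.rpow_zero]
    have e : (y : ℝ) - s * a ^ m = 0 := by
      have : (y : ℝ) = s * a ^ m := by exact_mod_cast he
      rw [this, sub_self]
    rw [e, abs_zero]; norm_num
  have h3 : (Z.card : ℝ) ≤ 2 * ((Z.filter fun y => y % 2 ≠ 0).card : ℝ) := by exact_mod_cast h1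
  linarith

end Pool.Agent.V5helper5.SQ2
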